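import Pool.Agent.TH192.DT.MotZ

set_option autoImplicit false

/-! # Poles of motivic zeta functions which are computed on a resolution -/

namespace Pool.Agent.R852.BM

open Pool.Agent.TH192.DT

/-- The pairs `(a, n)`, `a < 0 < n`, such that `a / n` is a root of `b`. -/
def RootPairs (b : Polynomial ℂ) : Set (ℤ × ℤ) :=
  {q | q.1 < 0 ∧ 0 < q.2 ∧ b.eval ((q.1 : ℂ) / q.2) = 0}

/-- `s₀` is a pole of `Z ∈ R⟦T⟧`: `Z` does not belong to the subring of `R⟦T⟧` which is generated by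
`R`, `T` and the `1 / (1 - u ^ a T ^ n)`, `a ∈ ℤ`, `n > 0`, `a / n ≠ s₀`. -/
def IsPoleU {R : Type} [CommRing R] (u : Rˣ) (Z : PowerSeries R) (s₀ : ℚ) : Prop :=
  Z ∉ ratU u {q | 0 < q.2 ∧ (q.1 : ℚ) / q.2 ≠ s₀}

variable {R : Type} [CommRing R]

theorem ratU_mono (u : Rˣ) {S S' : Set (ℤ × ℤ)} (h : S ⊆ S') : ratU u S ≤ ratU u S' := by
  refine Algebra.adjoin_mono ?_
  rintro g (hg | ⟨p, hp, rfl⟩)
  · exact Or.inl hg
  · exact Or.inr ⟨p, h hp, rfl⟩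

theorem rootPairs_sub {b : Polynomial ℂ} {s₀ : ℚ} (h : b.eval (s₀ : ℂ) ≠ 0) :
    RootPairs b ⊆ {q | 0 < q.2 ∧ (q.1 : ℚ) / q.2 ≠ s₀} := by
  rintro q ⟨_, h2, h3⟩
  refine ⟨h2, fun h4 => h ?_⟩
  rw [← h4]
  push_cast
  exact h3

theorem root_of_poleU (u : Rˣ) {Z : PowerSeries R} {b : Polynomial ℂ}
    (h : Z ∈ ratU u (RootPairs b)) {s₀ : ℚ} (hs : IsPoleU u Z s₀) : b.eval (s₀ : ℂ) = 0 := by
  by_contra hb
  exact hs (ratU_mono u (rootPairs_sub hb) h)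

/-- only the components which occur in a stratum with a coefficient different from zero matter -/
theorem dlZ_mem_of {ι : Type} [Fintype ι] (u : Rˣ) (ν N : ι → ℕ)
    (c : Finset {i // 0 < N i} → R) (S : Set (ℤ × ℤ))
    (h : ∀ J, c J ≠ 0 → ∀ i ∈ J, (-(ν i.1 : ℤ), (N i.1 : ℤ)) ∈ S) : dlZ u ν N c ∈ ratU u S := by
  classical
  refine Subalgebra.sum_mem _ fun J _ => ?_
  by_cases hJ : c J = 0
  · rw [hJ, map_zero, zero_mul]
    exact Subalgebra.zero_mem _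
  refine Subalgebra.mul_mem _ (Subalgebra.algebraMap_mem _ (c J))
    (Subalgebra.prod_mem _ fun i hi => Subalgebra.mul_mem _ (Subalgebra.mul_mem _
      (Subalgebra.algebraMap_mem _ _) (Subalgebra.pow_mem _ ?_ _)) ?_)
  · exact Algebra.subset_adjoin (Or.inl rfl)
  · exact Algebra.subset_adjoin (Or.inr ⟨_, h J hJ i hi, rfl⟩)

end Pool.Agent.R852.BM
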