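import Pool.Agent.W574.MO.FormDefs
import Pool.Agent.R852.PP.FE

set_option autoImplicit false

/-! # The motivic zeta functions of `h(x) ∏_t (∑_j y_{t,j} f_{t,j}(x)) ^ a_t`

`M` is a commutative ring with a unit `L`, see `Pool.Agent.W574.MO.Defs`; the main example is
`M = K₀(Var_ℂ)[1/L]`. Let `F = h ∏_t F_t ^ a_t`, `F_t = ∑_j y_{t,j} f_{t,j}(x)` (`PP.form a h f`), and let
`J = h ∏_t (f_{t,j})_j ^ a_t` be the ideal with the generators `PP.gen a h f`. If `φ = (x(t), y(t))` is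
an arc and `e_t = min_j ord f_{t,j}(x(t)) < ∞`, then `F_t(φ) = t^(e_t) ℓ_t(y_t(t))` with a linear form
`ℓ_t`, one of whose coefficients is a unit. Hence, for fixed `x(t)`, the integral of `T^(ord F)` over
the arcs `y(t)` is `T^e ∏_t (1 - L⁻¹) / (1 - L⁻¹ T^(a_t))`, where `e = ord h(x(t)) + ∑_t a_t e_t` is the
order of `J` along `x(t)`; it is `T^e ∏_t L^(-r_t) (1 - L⁻¹) T^(a_t) / (1 - L⁻¹ T^(a_t))`, if `y(0) = 0` is
required (`r_t` is the number of the `y_{t,j}`). -/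

namespace Pool.Agent.R852.BM

open MvPolynomial Pool.Agent.W574.SM Pool.Agent.W574.CN Pool.Agent.W574.MO Pool.Agent.R852.PP
open Pool.Agent.TH192.DT

variable {M : Type} [CommRing M]

section

variable {τ : Type} [Fintype τ] {κ : τ → Type} [∀ t, Fintype (κ t)]

/-- The factor `∏_t (1 - L⁻¹) / (1 - L⁻¹ T^(a_t))` of the variables `y`. -/
noncomputable def facG (L : Mˣ) (a : τ → ℕ) : PowerSeries M :=
  ∏ t, (PowerSeries.C (1 - ((L⁻¹ : Mˣ) : M)) * geo L (a t) 1)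

/-- The factor `∏_t L^(-r_t) (1 - L⁻¹) T^(a_t) / (1 - L⁻¹ T^(a_t))` of the variables `y`, for the arcs
with `y(0) = 0`; `r_t` is the number of the `y_{t,j}`. -/
noncomputable def facL (L : Mˣ) (κ : τ → Type) [∀ t, Fintype (κ t)] (a : τ → ℕ) : PowerSeries M :=
  ∏ t, (PowerSeries.C (((L⁻¹ ^ Fintype.card (κ t) : Mˣ) : M) * (1 - ((L⁻¹ : Mˣ) : M))) *
    PowerSeries.X ^ a t * geo L (a t) 1)

end

variable {τ : Type} [Fintype τ] [DecidableEq τ] {κ : τ → Type} [∀ t, Fintype (κ t)]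
  [∀ t, DecidableEq (κ t)]

/-- `Z` is (of the form of) the global motivic zeta function `∫ T^(ord F) dμ` of
`F = h ∏_t F_t ^ a_t`, two variables `x`: `Z = (L⁻² Z') ∏_t (1 - L⁻¹) / (1 - L⁻¹ T^(a_t))`, where `L⁻² Z'`
is the motivic zeta function `∫ T^(ord J) dμ` of the ideal `J` of `ℂ[x₁, x₂]`, see `PlaneMot`. -/
def PlaneGlobal (L : Mˣ) (a : τ → ℕ) (h : MvPolynomial (Fin 2) ℂ)
    (f : (t : τ) → κ t → MvPolynomial (Fin 2) ℂ) (Z : PowerSeries M) : Prop :=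
  ∃ Z' : PowerSeries M, PlaneMot L (gen a h f) Z' ∧
    Z = PowerSeries.C ((L⁻¹ ^ 2 : Mˣ) : M) * Z' * facG L a

/-- `Z` is the local motivic zeta function `∫_{φ(0) = 0} T^(ord F) dμ` at the origin of
`F = h ∏_t F_t ^ a_t`, two variables `x`:
`Z = (L⁻² Z') ∏_t L^(-r_t) (1 - L⁻¹) T^(a_t) / (1 - L⁻¹ T^(a_t))`, where `L⁻² Z'` is the local motivic
zeta function of the ideal `J` of `ℂ[x₁, x₂]` at the origin, see `MotLocal`. -/
def PlaneLocal (L : Mˣ) (a : τ → ℕ) (h : MvPolynomial (Fin 2) ℂ)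
    (f : (t : τ) → κ t → MvPolynomial (Fin 2) ℂ) (Z : PowerSeries M) : Prop :=
  ∃ Z' : PowerSeries M, MotLocal L (gen a h f) 0 1 0 1 Z' ∧
    Z = PowerSeries.C ((L⁻¹ ^ 2 : Mˣ) : M) * Z' * facL L κ a

/-- `Z` is (of the form of) the global motivic zeta function `∫ T^(ord F) dμ` of
`F = h ∏_t F_t ^ a_t`, where `h` and the `f_{t,j}` are forms in `x₀, x₁, x₂`, so that `J` is generated by
forms of degree `d`: `Z = L⁻³ (L - 1) Z_J / (1 - L⁻³ T^d) ∏_t (1 - L⁻¹) / (1 - L⁻¹ T^(a_t))`, see `ProjMot`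
for `Z_J`: an arc of `ℂ ^ 3` is `t^k x(t)` with `k ≥ 0` and `x(0) ≠ 0`, and the integral over the arcs
with `x(0) ≠ 0` is `L⁻³ (L - 1) Z_J`, because `ℂ ^ 3 ∖ 0` is, over the sets `x_i ≠ 0`, the product of
the projective plane with `ℂ ∖ 0`. -/
def ConeGlobal (L : Mˣ) (a : τ → ℕ) (h : MvPolynomial (Fin 3) ℂ)
    (f : (t : τ) → κ t → MvPolynomial (Fin 3) ℂ) (d : ℕ) (Z : PowerSeries M) : Prop :=
  ∃ Z' : PowerSeries M, ProjMot L (gen a h f) Z' ∧
    Z = PowerSeries.C (((L⁻¹ ^ 3 : Mˣ) : M) * ((L : M) - 1)) * Z' * geo L d 3 * facG L a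

/-- `Z` is (of the form of) the local motivic zeta function `∫_{φ(0) = 0} T^(ord F) dμ` at the origin
of `F = h ∏_t F_t ^ a_t`, where `h` and the `f_{t,j}` are forms in `x₀, x₁, x₂`, so that `J` is generated
by forms of degree `d`: `Z = Z_{J,0} ∏_t L^(-r_t) (1 - L⁻¹) T^(a_t) / (1 - L⁻¹ T^(a_t))`, where `Z_{J,0}` is
the local motivic zeta function of the ideal `J` at the origin, see `ConeMot`. -/
def ConeLocal (L : Mˣ) (a : τ → ℕ) (h : MvPolynomial (Fin 3) ℂ)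
    (f : (t : τ) → κ t → MvPolynomial (Fin 3) ℂ) (d : ℕ) (Z : PowerSeries M) : Prop :=
  ∃ Z' : PowerSeries M, ConeMot L (gen a h f) d Z' ∧ Z = Z' * facL L κ a

/-- The sum of the degrees of `h` and of the `F_t ^ a_t` in the variables `x`. -/
def degJ (a : τ → ℕ) (d₀ : ℕ) (d : τ → ℕ) : ℕ := d₀ + ∑ t, a t * d t

end Pool.Agent.R852.BM
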