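import Pool.Agent.R852.BM.PMain

set_option autoImplicit false
set_option linter.unusedSectionVars false
set_option linter.unusedVariables false

/-! # Jets with angular component one, for `h(x) ∏_t (∑_j y_{t,j} f_{t,j}(x)) ^ a_t`

`M` is a commutative ring with a unit `L`, see `Pool.Agent.W574.MO.Defs`; the main example is
`M = K₀(Var_ℂ)[1/L]`. Let `F = h ∏_t F_t ^ a_t`, `F_t = ∑_j y_{t,j} f_{t,j}(x)` (`PP.form a h f`), `t ∈ τ`,
and let `J = h ∏_t (f_{t,j})_j ^ a_t` be the ideal with the generators `PP.gen a h f`. If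
`φ = (x(t), y(t))` is an arc and `e_t = min_j ord f_{t,j}(x(t)) < ∞`, then
`F_t(φ) = t^(e_t) ℓ_t(y_t(t))` with a linear form `ℓ_t`, one of whose coefficients is a unit. The first
non-zero coefficient of `F(φ)` is the one of `h(x(t))` times `∏_t λ_t ^ a_t`, `λ_t ∈ ℂ ∖ 0` the one of
`ℓ_t(y_t(t))`. The condition that it is `1` is, for fixed `x(t)`, the equation `∏_t λ_t ^ a_t = c` with
some `c ∈ ℂ ∖ 0`. If the greatest common divisor of the `a_t` is `1`, its solutions are a product of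
`(ℂ ∖ 0) ^ (|τ| - 1)` and a point, algebraically in `c`; if `h` is constant, then `c` is constant, and
they are `g` copies of `(ℂ ∖ 0) ^ (|τ| - 1)`, `g` the greatest common divisor of the `a_t`. So the
integral over the `y(t)` with this condition is `T^e g (L - 1) ^ (|τ| - 1) L ^ (-|τ|) ∏_t 1 / (1 - L⁻¹ T^(a_t))`,
where `e` is the order of `J` along `x(t)`, with `g = 1` in the first case. If `y(0) = 0` is required,
then there is the further factor `∏_t L^(-r_t) T^(a_t)`, `r_t` the number of the `y_{t,j}`. -/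

namespace Pool.Agent.R852.BM

open MvPolynomial Pool.Agent.W574.SM Pool.Agent.W574.CN Pool.Agent.W574.MO Pool.Agent.R852.PP
open Pool.Agent.W574.LM Pool.Agent.W574.HS Pool.Agent.TH192.DT
open Pool.Agent.H628R4.TP (IsBFunction IsLocalBFunction)

variable {M : Type} [CommRing M]

section defs

variable {τ : Type} [Fintype τ] {κ : τ → Type} [∀ t, Fintype (κ t)]

/-- The factor `g (L - 1) ^ (|τ| - 1) L ^ (-|τ|) ∏_t 1 / (1 - L⁻¹ T^(a_t))` of the variables `y`. -/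
noncomputable def facJ (L : Mˣ) (a : τ → ℕ) (g : ℕ) : PowerSeries M :=
  PowerSeries.C ((g : M) * ((L : M) - 1) ^ (Fintype.card τ - 1) *
    ((L⁻¹ ^ Fintype.card τ : Mˣ) : M)) * ∏ t, geo L (a t) 1

/-- `g` is the number of the components of the solutions of `∏_t λ_t ^ a_t = c`: it is `1` if the
greatest common divisor of the `a_t` is `1`, and it is this greatest common divisor if `h` is
constant. -/
def IsNum {σ : Type} (a : τ → ℕ) (h : MvPolynomial σ ℂ) (g : ℕ) : Prop :=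
  g = Finset.univ.gcd a ∧ (g = 1 ∨ ∃ c, h = C c)

end defs

variable {τ : Type} [Fintype τ] [DecidableEq τ] {κ : τ → Type} [∀ t, Fintype (κ t)]
  [∀ t, DecidableEq (κ t)]

/-- `Z` is (of the form of) the series `∑_{m ≥ 0} [X_{m,1}] L^(-m N) T^m` of `F = h ∏_t F_t ^ a_t`, two
variables `x` and `r` variables `y`, `N = 2 + r`, where `X_{m,1}` is the set of the `m`-jets `φ` with
`F(φ) = t^m` modulo `t^(m + 1)`: it is `L^N` times the integral of `T^(ord F)` over the arcs for which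
the first non-zero coefficient of `F` is `1`; so it is `L^(2 + r) (L⁻² Z') facJ`, where `L⁻² Z'` is the
motivic zeta function `∫ T^(ord J) dμ` of the ideal `J` of `ℂ[x₁, x₂]`, see `PlaneMot`. -/
def PlaneJet (L : Mˣ) (a : τ → ℕ) (h : MvPolynomial (Fin 2) ℂ)
    (f : (t : τ) → κ t → MvPolynomial (Fin 2) ℂ) (Z : PowerSeries M) : Prop :=
  ∃ (g : ℕ) (Z' : PowerSeries M), IsNum a h g ∧ PlaneMot L (gen a h f) Z' ∧
    Z = PowerSeries.C ((L ^ (∑ t, Fintype.card (κ t)) : Mˣ) : M) * Z' * facJ L a g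

/-- `Z` is the series `∑_{m ≥ 1} [X_{m,1,x}] L^(-m N) T^m` of `F = h ∏_t F_t ^ a_t`, two variables `x`, at
the point `x = (P, 0)`, where `X_{m,1,x}` is the set of the `m`-jets `φ` with `φ(0) = x` and
`F(φ) = t^m` modulo `t^(m + 1)`: it is `L^(2 + r) (L⁻² Z') facJ ∏_t L^(-r_t) T^(a_t)`, where `L⁻² Z'` is
the local motivic zeta function of the ideal `J` of `ℂ[x₁, x₂]` at `P`, see `MotLocal`. -/
def PlaneJetAt (L : Mˣ) (a : τ → ℕ) (h : MvPolynomial (Fin 2) ℂ)
    (f : (t : τ) → κ t → MvPolynomial (Fin 2) ℂ) (P : Fin 2 → ℂ) (Z : PowerSeries M) : Prop :=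
  ∃ (g : ℕ) (Z' : PowerSeries M), IsNum a h g ∧
    MotLocal L (fun j => translate P (gen a h f j)) 0 1 0 1 Z' ∧
      Z = Z' * facJ L a g * ∏ t, PowerSeries.X ^ a t

/-- `Z` is (of the form of) the series `∑_{m ≥ 0} [X_{m,1}] L^(-m N) T^m` of `F = h ∏_t F_t ^ a_t`, where
`h` and the `f_{t,j}` are forms in `x₀, x₁, x₂`, so that `J` is generated by forms of degree `d`; there
are `r` variables `y`, `N = 3 + r`: it is `L^(3 + r) Z_J facJ`, where
`Z_J = L⁻³ (L - 1) Z' / (1 - L⁻³ T^d)` is the motivic zeta function of `J`, see `ProjMot` for `Z'`. -/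
def ConeJet (L : Mˣ) (a : τ → ℕ) (h : MvPolynomial (Fin 3) ℂ)
    (f : (t : τ) → κ t → MvPolynomial (Fin 3) ℂ) (d : ℕ) (Z : PowerSeries M) : Prop :=
  ∃ (g : ℕ) (Z' : PowerSeries M), IsNum a h g ∧ ProjMot L (gen a h f) Z' ∧
    Z = PowerSeries.C (((L ^ (∑ t, Fintype.card (κ t)) : Mˣ) : M) * ((L : M) - 1)) * Z' *
      geo L d 3 * facJ L a g

/-- `Z` is (of the form of) the series `∑_{m ≥ 1} [X_{m,1,0}] L^(-m N) T^m` of `F = h ∏_t F_t ^ a_t` at the
origin, where `h` and the `f_{t,j}` are forms in `x₀, x₁, x₂`, so that `J` is generated by forms of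
degree `d`: it is `L^(3 + r) Z_{J,0} facJ ∏_t L^(-r_t) T^(a_t)`, where `Z_{J,0}` is the local motivic
zeta function of `J` at the origin, see `ConeMot`. -/
def ConeJetAt (L : Mˣ) (a : τ → ℕ) (h : MvPolynomial (Fin 3) ℂ)
    (f : (t : τ) → κ t → MvPolynomial (Fin 3) ℂ) (d : ℕ) (Z : PowerSeries M) : Prop :=
  ∃ (g : ℕ) (Z' : PowerSeries M), IsNum a h g ∧ ConeMot L (gen a h f) d Z' ∧
    Z = PowerSeries.C ((L ^ 3 : Mˣ) : M) * Z' * facJ L a g * ∏ t, PowerSeries.X ^ a t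

variable (L : Mˣ) (a : τ → ℕ)

theorem facJ_mem {K : ℕ → ℕ → Prop} (ha : ∀ t, 1 ≤ a t) (hK : ∀ t, K (a t) 1) (g : ℕ) :
    facJ L a g ∈ DenRing L K :=
  Subring.mul_mem _ (C_mem _) (Subring.prod_mem _ fun t _ => geo_mem (ha t) le_rfl (hK t))

variable [Nonempty τ]

theorem plane_jet (h : MvPolynomial (Fin 2) ℂ) (hh : h ≠ 0)
    (f : (t : τ) → κ t → MvPolynomial (Fin 2) ℂ) (hf : ∀ t, ∃ j, f t j ≠ 0) (ha : ∀ t, 1 ≤ a t)
    (b : Polynomial ℂ) (hb : IsBFunction (form a h f) b) (Z : PowerSeries M)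
    (hZ : PlaneJet L a h f Z) : Z ∈ DenRing L (RootPair b) := by
  obtain ⟨g, Z', -, hZ', rfl⟩ := hZ
  obtain ⟨b', rfl, hb'⟩ := glob a h hh f hf ha b hb
  refine Subring.mul_mem _ (Subring.mul_mem _ (C_mem _) ?_)
    (facJ_mem L a ha (fun t => phiA_root a ha t b') g)
  exact DenRing_mono L (fun x y h => root_mul b' (phiA a) x y h)
    (plane_mot L (PP.gen a h f) b' hb' Z' hZ')

theorem plane_jet_at (h : MvPolynomial (Fin 2) ℂ) (hh : h ≠ 0)
    (f : (t : τ) → κ t → MvPolynomial (Fin 2) ℂ) (hf : ∀ t, ∃ j, f t j ≠ 0) (ha : ∀ t, 1 ≤ a t)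
    (b : Polynomial ℂ) (hb : IsBFunction (form a h f) b) (P : Fin 2 → ℂ) (Z : PowerSeries M)
    (hZ : PlaneJetAt L a h f P Z) : Z ∈ DenRing L (RootPair b) := by
  obtain ⟨g, Z', -, hZ', rfl⟩ := hZ
  obtain ⟨b', rfl, hb'⟩ := glob a h hh f hf ha b hb
  refine Subring.mul_mem _ (Subring.mul_mem _ ?_
    (facJ_mem L a ha (fun t => phiA_root a ha t b') g))
    (Subring.prod_mem _ fun t _ => Subring.pow_mem _ X_mem _)
  refine DenRing_mono L (fun x y h => root_mul b' (phiA a) x y h)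
    (point_mot L (PP.gen a h f) b' 1 ?_ P ?_ Z' hZ')
  · obtain ⟨S, Q, h1, h2⟩ := hb'
    refine ⟨S, Q, h1, fun s => ?_⟩
    rw [one_mul]
    exact h2 s
  · rw [map_one]
    exact one_ne_zero

variable (h : MvPolynomial (Fin 3) ℂ) (f : (t : τ) → κ t → MvPolynomial (Fin 3) ℂ) (d₀ : ℕ)
  (d : τ → ℕ)

theorem cone_jet (hh0 : h ≠ 0) (hf0 : ∀ t, ∃ j, f t j ≠ 0) (ha : ∀ t, 1 ≤ a t)
    (hh : h.IsHomogeneous d₀) (hf : ∀ t j, (f t j).IsHomogeneous (d t))
    (hd : 0 < degJ a d₀ d) (b : Polynomial ℂ) (hb : IsBFunction (form a h f) b)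
    (Z : PowerSeries M) (hZ : ConeJet L a h f (degJ a d₀ d) Z) :
    Z ∈ DenRing L (ConePair (PP.gen a h f) (degJ a d₀ d) b) := by
  classical
  obtain ⟨g, Z', -, hZ', rfl⟩ := hZ
  obtain ⟨b', rfl, hb'⟩ := glob a h hh0 f hf0 ha b hb
  have hm := DenRing_mono L (fun x y h' => cone_pair a h f b' (phiA a) (degJ a d₀ d) x y h')
  refine Subring.mul_mem _ (Subring.mul_mem _ (Subring.mul_mem _ (C_mem _) ?_) ?_)
    (facJ_mem L a ha (fun t => Or.inl (phiA_root a ha t b')) g)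
  · exact hm (proj_mot L _ _ (gen_homog a h f d₀ d hh hf) b' hb' Z' hZ')
  · exact hm (geo_mem hd (by norm_num) (pair_d3 _ _ hd (gen_homog a h f d₀ d hh hf) b' hb'))

theorem cone_jet_at (hh0 : h ≠ 0) (hf0 : ∀ t, ∃ j, f t j ≠ 0) (ha : ∀ t, 1 ≤ a t)
    (hh : h.IsHomogeneous d₀) (hf : ∀ t j, (f t j).IsHomogeneous (d t))
    (hd : 0 < degJ a d₀ d) (b : Polynomial ℂ) (hb : IsBFunction (form a h f) b)
    (Z : PowerSeries M) (hZ : ConeJetAt L a h f (degJ a d₀ d) Z) :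
    Z ∈ DenRing L (ConePair (PP.gen a h f) (degJ a d₀ d) b) := by
  classical
  obtain ⟨g, Z', -, hZ', rfl⟩ := hZ
  obtain ⟨b', rfl, hb'⟩ := glob a h hh0 f hf0 ha b hb
  have hm := DenRing_mono L (fun x y h' => cone_pair a h f b' (phiA a) (degJ a d₀ d) x y h')
  exact Subring.mul_mem _ (Subring.mul_mem _ (Subring.mul_mem _ (C_mem _)
    (hm (cone_mot L _ _ hd (gen_homog a h f d₀ d hh hf) b' hb' Z' hZ')))
    (facJ_mem L a ha (fun t => Or.inl (phiA_root a ha t b')) g))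
    (Subring.prod_mem _ fun t _ => Subring.pow_mem _ X_mem _)

end Pool.Agent.R852.BM
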