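import Pool.Agent.W574.MO.Cone
import Pool.Agent.R852.BM.PDefs

set_option autoImplicit false
set_option linter.unusedSectionVars false
set_option linter.unusedVariables false

/-! # The denominators of the motivic zeta functions of `h(x) ∏_t (∑_j y_{t,j} f_{t,j}(x)) ^ a_t` -/

namespace Pool.Agent.R852.BM

open MvPolynomial Pool.Agent.W574.SM Pool.Agent.W574.CN Pool.Agent.W574.MO Pool.Agent.R852.PP
open Pool.Agent.W574.LM Pool.Agent.W574.HS Pool.Agent.TH192.DT
open Pool.Agent.H628R4.TP (IsBFunction IsLocalBFunction)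

variable {M : Type} [CommRing M] (L : Mˣ)

variable {τ : Type} [Fintype τ] [DecidableEq τ] {κ : τ → Type} [∀ t, Fintype (κ t)]
  [∀ t, DecidableEq (κ t)] (a : τ → ℕ)

theorem phiA_root (ha : ∀ t, 1 ≤ a t) (t : τ) (b' : Polynomial ℂ) :
    RootPair (phiA a * b') (a t) 1 := by
  have hne : (a t : ℂ) ≠ 0 := Nat.cast_ne_zero.2 (by have := ha t; omega)
  rw [RootPair, Polynomial.eval_mul]
  refine mul_eq_zero_of_left ?_ _
  rw [phiA, Polynomial.eval_prod]
  refine Finset.prod_eq_zero (Finset.mem_univ t) ?_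
  rw [Polynomial.eval_prod]
  refine Finset.prod_eq_zero (i := 0) (Finset.mem_range.2 (ha t)) ?_
  rw [Polynomial.eval_add, Polynomial.eval_mul, Polynomial.eval_C, Polynomial.eval_C,
    Polynomial.eval_X]
  push_cast
  field_simp
  ring

theorem root_mul (b' c : Polynomial ℂ) (x y : ℕ) (h : RootPair b' x y) :
    RootPair (c * b') x y := by
  rw [RootPair, Polynomial.eval_mul, show b'.eval (-(y : ℂ) / x) = 0 from h, mul_zero]

theorem facG_mem {K : ℕ → ℕ → Prop} (ha : ∀ t, 1 ≤ a t) (hK : ∀ t, K (a t) 1) :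
    facG L a ∈ DenRing L K :=
  Subring.prod_mem _ fun t _ => Subring.mul_mem _ (C_mem _) (geo_mem (ha t) le_rfl (hK t))

theorem facL_mem {K : ℕ → ℕ → Prop} (ha : ∀ t, 1 ≤ a t) (hK : ∀ t, K (a t) 1) :
    facL L κ a ∈ DenRing L K :=
  Subring.prod_mem _ fun t _ => Subring.mul_mem _ (Subring.mul_mem _ (C_mem _)
    (Subring.pow_mem _ X_mem _)) (geo_mem (ha t) le_rfl (hK t))

theorem form_ne {σ : Type} [Fintype σ] [DecidableEq σ] (h : MvPolynomial σ ℂ) (hh : h ≠ 0)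
    (f : (t : τ) → κ t → MvPolynomial σ ℂ) (hf : ∀ t, ∃ j, f t j ≠ 0) : form a h f ≠ 0 := by
  unfold form
  refine mul_ne_zero ?_ (powProd_ne a f hf)
  rwa [Ne, map_eq_zero_iff _ (rename_injective _ Sum.inr_injective)]

section

variable [Nonempty τ]

/-- the global functional equation -/
theorem glob {σ : Type} [DecidableEq σ] (h : MvPolynomial σ ℂ) (hh : h ≠ 0)
    (f : (t : τ) → κ t → MvPolynomial σ ℂ) (hf : ∀ t, ∃ j, f t j ≠ 0) (ha : ∀ t, 1 ≤ a t)
    (b : Polynomial ℂ) (hb : IsBFunction (form a h f) b) :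
    ∃ b' : Polynomial ℂ, b = phiA a * b' ∧ IsFunctionalEq (PP.gen a h f) b' :=
  functionalEq_strong a h f hh hf (Classical.arbitrary τ)
    (by have := ha (Classical.arbitrary τ); omega) b hb

theorem plane_global (h : MvPolynomial (Fin 2) ℂ) (hh : h ≠ 0)
    (f : (t : τ) → κ t → MvPolynomial (Fin 2) ℂ) (hf : ∀ t, ∃ j, f t j ≠ 0) (ha : ∀ t, 1 ≤ a t)
    (b : Polynomial ℂ) (hb : IsBFunction (form a h f) b) (Z : PowerSeries M)
    (hZ : PlaneGlobal L a h f Z) : Z ∈ DenRing L (RootPair b) := by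
  obtain ⟨Z', hZ', rfl⟩ := hZ
  obtain ⟨b', rfl, hb'⟩ := glob a h hh f hf ha b hb
  refine Subring.mul_mem _ (Subring.mul_mem _ (C_mem _) ?_)
    (facG_mem L a ha fun t => phiA_root a ha t b')
  exact DenRing_mono L (fun x y h => root_mul b' (phiA a) x y h)
    (plane_mot L (PP.gen a h f) b' hb' Z' hZ')

theorem plane_local (h : MvPolynomial (Fin 2) ℂ) (hh : h ≠ 0)
    (f : (t : τ) → κ t → MvPolynomial (Fin 2) ℂ) (hf : ∀ t, ∃ j, f t j ≠ 0) (ha : ∀ t, 1 ≤ a t)
    (b : Polynomial ℂ) (hb : IsLocalBFunction (form a h f) b) (Z : PowerSeries M)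
    (hZ : PlaneLocal L a h f Z) : Z ∈ DenRing L (RootPair b) := by
  obtain ⟨Z', hZ', rfl⟩ := hZ
  obtain ⟨H, P, hH, hP⟩ := algebraic_of_local (form a h f) (form_ne a h hh f hf) b hb
  have hH0 : hat H 0 ≠ 0 := by
    intro h0
    apply hH
    rw [← cc_hat, h0, map_zero]
  obtain ⟨b', rfl, hb'⟩ := locEq_strong a h f hh hf (Classical.arbitrary τ)
    (by have := ha (Classical.arbitrary τ); omega) b H hH0 P hP
  refine Subring.mul_mem _ (Subring.mul_mem _ (C_mem _) ?_)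
    (facL_mem L a ha fun t => phiA_root a ha t b')
  refine DenRing_mono L (fun x y h => root_mul b' (phiA a) x y h)
    (point_mot L (PP.gen a h f) b' (hat H 0) hb' 0 ?_ Z' ?_)
  · rw [eval_zero, cc_hat]
    exact hH
  · rw [Pool.Agent.W574.MO.translate_zero]
    exact hZ'

/-! ### Cones -/

theorem gen_homog {σ : Type} (h : MvPolynomial σ ℂ) (f : (t : τ) → κ t → MvPolynomial σ ℂ)
    (d₀ : ℕ) (d : τ → ℕ) (hh : h.IsHomogeneous d₀) (hf : ∀ t j, (f t j).IsHomogeneous (d t))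
    (J : Ch κ a) : (PP.gen a h f J).IsHomogeneous (degJ a d₀ d) := by
  unfold PP.gen degJ
  refine hh.mul ?_
  have h1 : (prodFam (fun q : Σ t, Fin (a t) => f q.1) J).IsHomogeneous
      (∑ q : Σ t, Fin (a t), d q.1) := by
    unfold prodFam
    exact MvPolynomial.IsHomogeneous.prod _ _ _ fun q _ => hf _ _
  have h2 : ∑ q : Σ t, Fin (a t), d q.1 = ∑ t, a t * d t := by
    rw [Fintype.sum_sigma]
    refine Finset.sum_congr rfl fun t _ => ?_
    simp
  rw [← h2]
  exact h1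

theorem form_homog {σ : Type} (h : MvPolynomial σ ℂ) (f : (t : τ) → κ t → MvPolynomial σ ℂ)
    (d₀ : ℕ) (d : τ → ℕ) (hh : h.IsHomogeneous d₀) (hf : ∀ t j, (f t j).IsHomogeneous (d t)) :
    (form a h f).IsHomogeneous (d₀ + ∑ t, (1 + d t) * a t) := by
  unfold form powProd
  refine (hh.rename_isHomogeneous).mul (MvPolynomial.IsHomogeneous.prod _ _ _ fun t _ => ?_)
  refine MvPolynomial.IsHomogeneous.pow ?_ _
  unfold blockForm
  refine MvPolynomial.IsHomogeneous.sum _ _ _ fun j _ => ?_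
  exact (isHomogeneous_X ℂ _).mul ((hf t j).rename_isHomogeneous)

variable (h : MvPolynomial (Fin 3) ℂ) (f : (t : τ) → κ t → MvPolynomial (Fin 3) ℂ) (d₀ : ℕ)
  (d : τ → ℕ)

/-- the denominators -/
theorem cone_pair (b' c : Polynomial ℂ) (D x y : ℕ) (h' : ConePair (PP.gen a h f) D b' x y) :
    ConePair (PP.gen a h f) D (c * b') x y := by
  rcases h' with h' | h'
  · exact Or.inl (root_mul b' c x y h')
  · exact Or.inr h'

theorem cone_global (hh0 : h ≠ 0) (hf0 : ∀ t, ∃ j, f t j ≠ 0) (ha : ∀ t, 1 ≤ a t)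
    (hh : h.IsHomogeneous d₀) (hf : ∀ t j, (f t j).IsHomogeneous (d t))
    (hd : 0 < degJ a d₀ d) (b : Polynomial ℂ) (hb : IsBFunction (form a h f) b)
    (Z : PowerSeries M) (hZ : ConeGlobal L a h f (degJ a d₀ d) Z) :
    Z ∈ DenRing L (ConePair (PP.gen a h f) (degJ a d₀ d) b) := by
  classical
  obtain ⟨Z', hZ', rfl⟩ := hZ
  obtain ⟨b', rfl, hb'⟩ := glob a h hh0 f hf0 ha b hb
  have hm := DenRing_mono L (fun x y h' => cone_pair a h f b' (phiA a) (degJ a d₀ d) x y h')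
  refine Subring.mul_mem _ (Subring.mul_mem _ (Subring.mul_mem _ (C_mem _) ?_) ?_)
    (facG_mem L a ha fun t => Or.inl (phiA_root a ha t b'))
  · exact hm (proj_mot L _ _ (gen_homog a h f d₀ d hh hf) b' hb' Z' hZ')
  · exact hm (geo_mem hd (by norm_num) (pair_d3 _ _ hd (gen_homog a h f d₀ d hh hf) b' hb'))

theorem cone_local (hh0 : h ≠ 0) (hf0 : ∀ t, ∃ j, f t j ≠ 0) (ha : ∀ t, 1 ≤ a t)
    (hh : h.IsHomogeneous d₀) (hf : ∀ t j, (f t j).IsHomogeneous (d t))
    (hd : 0 < degJ a d₀ d) (b : Polynomial ℂ) (hb : IsLocalBFunction (form a h f) b)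
    (Z : PowerSeries M) (hZ : ConeLocal L a h f (degJ a d₀ d) Z) :
    Z ∈ DenRing L (ConePair (PP.gen a h f) (degJ a d₀ d) b) := by
  classical
  obtain ⟨Z', hZ', rfl⟩ := hZ
  have hbg : IsBFunction (form a h f) b :=
    global_of_local _ (form_ne a h hh0 f hf0) _ (form_homog a h f d₀ d hh hf) b hb
  obtain ⟨b', rfl, hb'⟩ := glob a h hh0 f hf0 ha b hbg
  have hm := DenRing_mono L (fun x y h' => cone_pair a h f b' (phiA a) (degJ a d₀ d) x y h')
  exact Subring.mul_mem _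
    (hm (cone_mot L _ _ hd (gen_homog a h f d₀ d hh hf) b' hb' Z' hZ'))
    (facL_mem L a ha fun t => Or.inl (phiA_root a ha t b'))

end

end Pool.Agent.R852.BM
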