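import Pool.Agent.Y228.RR.Top
import Pool.Agent.R852.BM.Defs

set_option autoImplicit false
set_option linter.unusedSectionVars false
set_option linter.unusedVariables false

/-! # Motivic zeta functions of products of powers of forms over ideals with Rees divisors -/

namespace Pool.Agent.R852.BM

open Pool.Agent.H628R4.TP Pool.Agent.TH192.DT Pool.Agent.Y231.RF Pool.Agent.Y228.RR

variable {σ T I : Type} [Fintype σ] [DecidableEq σ] [Fintype T] [DecidableEq T] [Fintype I]
  {κ : T → Type} [∀ t, Fintype (κ t)] [∀ t, DecidableEq (κ t)]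

theorem rees_mot (g : (t : T) → κ t → MvPolynomial σ ℂ) (hg : ∀ t, ∃ j, g t j ≠ 0) (a : T → ℕ)
    (k : I → ℕ) (m : I → T → ℕ) {R : Type} [CommRing R] (u : Rˣ)
    (χ : Finset {x // 0 < mulR a m x} → R) (b : Polynomial ℂ)
    (h : (IsBFunction (powProd a g) b ∧
        ∀ i, (∃ J, χ J ≠ 0 ∧ ∃ x ∈ J, x.1 = Sum.inl i) →
          FromRees g a 1 (k i + 1) (∑ t, a t * m i t)) ∨
      (IsLocalBFunction (powProd a g) b ∧
        ∀ i, (∃ J, χ J ≠ 0 ∧ ∃ x ∈ J, x.1 = Sum.inl i) →
          ∀ H : MvPolynomial σ ℂ, MvPolynomial.constantCoeff H ≠ 0 →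
            FromRees g a H (k i + 1) (∑ t, a t * m i t))) :
    dlZ u (nuR k T) (mulR a m) χ ∈ ratU u (RootPairs b) ∧
      ∀ s₀ : ℚ, IsPoleU u (dlZ u (nuR k T) (mulR a m) χ) s₀ → b.eval (s₀ : ℂ) = 0 := by
  have h1 : dlZ u (nuR k T) (mulR a m) χ ∈ ratU u (RootPairs b) := by
    refine dlZ_mem_of u _ _ χ _ fun J hJ x hx => ?_
    obtain ⟨x, hx0⟩ := x
    refine ⟨?_, ?_, ?_⟩
    · change -(nuR k T x : ℤ) < 0
      have := nuR_pos (T := T) k x
      omega
    · change (0 : ℤ) < (mulR a m x : ℤ)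
      exact_mod_cast hx0
    · change b.eval (((-(nuR k T x : ℤ) : ℤ) : ℂ) / ((mulR a m x : ℤ) : ℂ)) = 0
      push_cast
      rcases x with i | t
      · have hpos : 0 < ∑ t, a t * m i t := hx0
        have ha : ∃ t, a t ≠ 0 := by
          obtain ⟨t, _, ht⟩ := Finset.exists_ne_zero_of_sum_ne_zero hpos.ne'
          exact ⟨t, left_ne_zero_of_mul ht⟩
        rcases h with ⟨hb, hE⟩ | ⟨hb, hE⟩
        · obtain ⟨H, hH, hHb⟩ := locEq_global a g b hb ha
          exact root_of_from a g b H hHb _ _ hpos ((hE i ⟨J, hJ, _, hx, rfl⟩).congr hH)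
        · obtain ⟨H, hH, hHb⟩ := (powData_local a g hg b hb).ideal ha
          exact root_of_from a g b H hHb _ _ hpos (hE i ⟨J, hJ, _, hx, rfl⟩ H hH)
      · have ht : 0 < a t := hx0
        have h2 : b.eval (-(1 + ((0 : ℕ) : ℂ)) / a t) = 0 := by
          rcases h with ⟨hb, _⟩ | ⟨hb, _⟩
          · exact (powData_global a g hg b hb).strict t 0 ht
          · exact (powData_local a g hg b hb).strict t 0 ht
        rw [Nat.cast_zero, add_zero] at h2
        change b.eval (-((1 : ℕ) : ℂ) / a t) = 0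
        rw [Nat.cast_one]
        exact h2
  exact ⟨h1, fun s₀ hs₀ => root_of_poleU u h1 hs₀⟩

end Pool.Agent.R852.BM
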