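import Pool.Agent.TH187.SA.Classes
import Pool.Agent.TH187.SA.Mult
import Pool.Agent.R852.BM.Rees

set_option autoImplicit false
set_option linter.unusedSectionVars false
set_option linter.unusedVariables false

/-! # One finite set of pairs for all `b` -/

namespace Pool.Agent.R852.BM

open Pool.Agent.W574.HS Pool.Agent.H628R4.TP Pool.Agent.TH192.DT Pool.Agent.TH187.SA

/-- the set of the pairs, subspaces -/
theorem sub_set {σ S T I : Type} [Fintype σ] [DecidableEq σ] [Fintype S] [DecidableEq S]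
    [Fintype T] [DecidableEq T] [Fintype I] {κ : S → Type} [∀ s, Fintype (κ s)]
    [∀ s, DecidableEq (κ s)] (c : (s : S) → κ s → σ → ℂ) (hc : ∀ s, ∃ j, c s j ≠ 0)
    (e : T → S → ℕ) (a : T → ℕ) (G : I → Submodule ℂ (σ → ℂ))
    (hG : ∀ i, IsReesFlat (fun s => zeros (c s)) (Occurs e a) (G i)) :
    ∃ 𝒮 : Finset (ℤ × ℤ), (∀ (R : Type) [CommRing R] (u : Rˣ)
        (χ : Finset {x // 0 < mulA (fun s => zeros (c s)) e a G x} → R),
        dlZ u (nuA G T) (mulA (fun s => zeros (c s)) e a G) χ ∈ ratU u (𝒮 : Set (ℤ × ℤ))) ∧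
      ∀ q ∈ 𝒮, q.1 < 0 ∧ 0 < q.2 ∧ ∀ b : Polynomial ℂ,
        (IsBFunction (powProd a fun t => arrGen c (e t)) b ∨
          IsLocalBFunction (powProd a fun t => arrGen c (e t)) b) →
        b.eval ((q.1 : ℂ) / q.2) = 0 := by
  refine ⟨pairs (nuA G T) (mulA (fun s => zeros (c s)) e a G),
    fun R _ u χ => dlZ_mem u _ _ χ, fun q hq => ?_⟩
  have h2 := pairs_sign _ _ (nuA_pos G hG) q hq
  refine ⟨h2.1, h2.2, fun b hb => ?_⟩
  have hd : PowData a (fun t => arrGen c (e t)) b := by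
    rcases hb with hb | hb
    · exact powData_global a _ (fun t => arrGen_ne c hc (e t)) b hb
    · exact powData_local a _ (fun t => arrGen_ne c hc (e t)) b hb
  exact pairs_roots _ _ (nuA_pos G hG) b (fun x l hl => pow_arr c e a G hG b hd x l hl) q hq

open Pool.Agent.Y231.RF Pool.Agent.Y228.RR

section Rees

variable {σ T I : Type} [Fintype σ] [DecidableEq σ] [Fintype T] [DecidableEq T] [Fintype I]
  {κ : T → Type} [∀ t, Fintype (κ t)] [∀ t, DecidableEq (κ t)]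

/-- the set of the pairs of the components which occur -/
theorem rees_set (g : (t : T) → κ t → MvPolynomial σ ℂ) (hg : ∀ t, ∃ j, g t j ≠ 0) (a : T → ℕ)
    (k : I → ℕ) (m : I → T → ℕ) {R : Type} [CommRing R] (u : Rˣ)
    (χ : Finset {x // 0 < mulR a m x} → R) :
    ∃ 𝒮 : Finset (ℤ × ℤ), dlZ u (nuR k T) (mulR a m) χ ∈ ratU u (𝒮 : Set (ℤ × ℤ)) ∧
      ∀ q ∈ 𝒮, q.1 < 0 ∧ 0 < q.2 ∧
        ((∀ i, (∃ J, χ J ≠ 0 ∧ ∃ x ∈ J, x.1 = Sum.inl i) →
            Pool.Agent.Y228.RR.FromRees g a 1 (k i + 1) (∑ t, a t * m i t)) →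
          ∀ b : Polynomial ℂ, IsBFunction (powProd a g) b → b.eval ((q.1 : ℂ) / q.2) = 0) ∧
        ((∀ i, (∃ J, χ J ≠ 0 ∧ ∃ x ∈ J, x.1 = Sum.inl i) →
            ∀ H : MvPolynomial σ ℂ, MvPolynomial.constantCoeff H ≠ 0 →
              Pool.Agent.Y228.RR.FromRees g a H (k i + 1) (∑ t, a t * m i t)) →
          ∀ b : Polynomial ℂ, IsLocalBFunction (powProd a g) b →
            b.eval ((q.1 : ℂ) / q.2) = 0) := by
  classical
  set 𝒮 : Finset (ℤ × ℤ) := (Finset.univ.filter fun x : {x // 0 < mulR a m x} =>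
    ∃ J, χ J ≠ 0 ∧ x ∈ J).image fun x => (-(nuR k T x.1 : ℤ), (mulR a m x.1 : ℤ)) with h𝒮
  refine ⟨𝒮, dlZ_mem_of u _ _ χ _ fun J hJ x hx => ?_, fun q hq => ?_⟩
  · exact Finset.mem_coe.2 (Finset.mem_image.2
      ⟨x, Finset.mem_filter.2 ⟨Finset.mem_univ _, J, hJ, hx⟩, rfl⟩)
  · obtain ⟨⟨x, hx0⟩, hx1, rfl⟩ := Finset.mem_image.1 hq
    obtain ⟨J, hJ, hx⟩ := (Finset.mem_filter.1 hx1).2
    refine ⟨?_, ?_, ?_⟩
    · change -(nuR k T x : ℤ) < 0
      have := nuR_pos (T := T) k x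
      omega
    · change (0 : ℤ) < (mulR a m x : ℤ)
      exact_mod_cast hx0
    change ((∀ i, (∃ J, χ J ≠ 0 ∧ ∃ x ∈ J, x.1 = Sum.inl i) →
        Pool.Agent.Y228.RR.FromRees g a 1 (k i + 1) (∑ t, a t * m i t)) →
          ∀ b : Polynomial ℂ, IsBFunction (powProd a g) b →
            b.eval (((-(nuR k T x : ℤ) : ℤ) : ℂ) / ((mulR a m x : ℤ) : ℂ)) = 0) ∧
        ((∀ i, (∃ J, χ J ≠ 0 ∧ ∃ x ∈ J, x.1 = Sum.inl i) →
            ∀ H : MvPolynomial σ ℂ, MvPolynomial.constantCoeff H ≠ 0 →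
              Pool.Agent.Y228.RR.FromRees g a H (k i + 1) (∑ t, a t * m i t)) →
          ∀ b : Polynomial ℂ, IsLocalBFunction (powProd a g) b →
            b.eval (((-(nuR k T x : ℤ) : ℤ) : ℂ) / ((mulR a m x : ℤ) : ℂ)) = 0)
    push_cast
    rcases x with i | t
    · have hpos : 0 < ∑ t, a t * m i t := hx0
      have ha : ∃ t, a t ≠ 0 := by
        obtain ⟨t, _, ht⟩ := Finset.exists_ne_zero_of_sum_ne_zero hpos.ne'
        exact ⟨t, left_ne_zero_of_mul ht⟩
      refine ⟨fun hE b hb => ?_, fun hE b hb => ?_⟩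
      · obtain ⟨H, hH, hHb⟩ := locEq_global a g b hb ha
        exact root_of_from a g b H hHb _ _ hpos ((hE i ⟨J, hJ, _, hx, rfl⟩).congr hH)
      · obtain ⟨H, hH, hHb⟩ := (powData_local a g hg b hb).ideal ha
        exact root_of_from a g b H hHb _ _ hpos (hE i ⟨J, hJ, _, hx, rfl⟩ H hH)
    · have ht : 0 < a t := hx0
      have key : ∀ b : Polynomial ℂ, PowData a g b → b.eval (-((1 : ℕ) : ℂ) / a t) = 0 := by
        intro b hd
        have h2 : b.eval (-(1 + ((0 : ℕ) : ℂ)) / a t) = 0 := hd.strict t 0 ht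
        rw [Nat.cast_zero, add_zero] at h2
        rw [Nat.cast_one]
        exact h2
      exact ⟨fun _ b hb => key b (powData_global a g hg b hb),
        fun _ b hb => key b (powData_local a g hg b hb)⟩

end Rees

end Pool.Agent.R852.BM
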